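import Pool.Agent.H20.SM.TP

/-!
MP_347b49_nt, board sm_modules, row DVF: Lipschitz bound from the first derivative.
-/

set_option autoImplicit false

open NumberField NumberField.InfinitePlace Complex Filter Topology

namespace Pool.Agent.H76.SM

open Pool.Agent.H20.SM
open Pool.Agent.H30.BV (DS)

theorem dvf_zero (f : ℕ → ℂ) : DS f 0 = LSeries f := by
  funext s
  unfold DS
  congr 1
  funext n
  simp

theorem dvf_one (f : ℕ → ℂ) : DS f 1 = LSeries (LSeries.logMul f) := by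
  funext s
  unfold DS
  congr 1
  funext n
  rw [LSeries.logMul, pow_one, Complex.natCast_log, mul_comm]

theorem dvf_deriv (f : ℕ → ℂ) (hf : ∀ s : ℂ, 1 < s.re → LSeriesSummable f s) (s : ℂ)
    (hs : 1 < s.re) : HasDerivAt (DS f 0) (-DS f 1 s) s := by
  rw [dvf_zero, dvf_one]
  refine LSeries_hasDerivAt ?_
  have h1 : LSeries.abscissaOfAbsConv f ≤ ((1 : ℝ) : EReal) := by
    apply LSeries.abscissaOfAbsConv_le_of_forall_lt_LSeriesSummable
    intro y hy
    exact hf (y : ℂ) (by simpa using hy)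
  exact lt_of_le_of_lt h1 (by exact_mod_cast hs)

theorem pf_DVF (hCFF : T_CFF) (hLBF : T_LBF) : T_DVF := by
  intro F _ _ _
  obtain ⟨C, E, hC, h⟩ := hLBF F 1
  refine ⟨C, E, hC, ?_⟩
  intro r χ T s₁ s₂ hr hR hχ hT h1 h1' h2 h2' hi1 hi2
  have hsum : ∀ s : ℂ, 1 < s.re → LSeriesSummable (ac F χ) s := by
    intro s hs
    have h3 := ((hCFF F).2.2 r χ s (by omega) hs).1 0 |>.1
    have e : (fun n => ac F χ n * ((Real.log n ^ 0 : ℝ) : ℂ)) = ac F χ := by
      funext n
      simp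
    rwa [e] at h3
  let S : Set ℂ := {s | 1 < s.re ∧ s.re ≤ 3 ∧ |s.im| ≤ T}
  have hconv : Convex ℝ S := by
    have e : S = (Complex.re ⁻¹' Set.Ioc 1 3) ∩ (Complex.im ⁻¹' Set.Icc (-T) T) := by
      ext s
      simp only [S, Set.mem_setOf_eq, Set.mem_inter_iff, Set.mem_preimage, Set.mem_Ioc,
        Set.mem_Icc, abs_le]
      tauto
    rw [e]
    exact ((convex_Ioc (1 : ℝ) 3).is_linear_preimage
      (f := Complex.re) ⟨Complex.add_re, fun c x => by simp⟩).inter
      ((convex_Icc (-T) T).is_linear_preimage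
      (f := Complex.im) ⟨Complex.add_im, fun c x => by simp⟩)
  have key := hconv.norm_image_sub_le_of_norm_hasDerivWithin_le (f := DS (ac F χ) 0)
    (f' := fun s => -DS (ac F χ) 1 s) (C := C * Real.log (r * (T + 3)) ^ E)
    (x := s₂) (y := s₁)
    (fun s hs => (dvf_deriv (ac F χ) hsum s hs.1).hasDerivWithinAt) ?_
    ⟨h2, h2', hi2⟩ ⟨h1, h1', hi1⟩
  · exact key
  · intro s hs
    rw [norm_neg]
    refine (h r χ s hr hR hχ hs.1 hs.2.1).trans ?_
    refine mul_le_mul_of_nonneg_left ?_ hC.le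
    have hr1 : (1 : ℝ) ≤ r := by exact_mod_cast (by omega : 1 ≤ r)
    have h3 : (1 : ℝ) ≤ r * (|s.im| + 3) := by
      have : (0 : ℝ) ≤ |s.im| := abs_nonneg _
      nlinarith
    refine pow_le_pow_left₀ (Real.log_nonneg h3) ?_ E
    refine Real.log_le_log (by linarith) ?_
    have h4 : |s.im| ≤ T := hs.2.2
    exact mul_le_mul_of_nonneg_left (by linarith) (by linarith)

end Pool.Agent.H76.SM
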